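import Pool.Agent.Helper38.XF.Spec2

/-!
# Swarm XG, part LCL
-/

set_option autoImplicit false

namespace Pool.Agent.Helper70.XG.LCL

open Polynomial Pool.Agent.Helper38.XF
open scoped IntermediateField

theorem main (hPOW : St_POW) : St_LCL := by
  intro p hp L _ _ t k hPB hk
  refine ⟨(algebraicClosure k L).toSubfield, ?_, ⟨?_, ?_⟩, ?_⟩
  · intro x
    exact mem_algebraicClosure_iff
  · exact mem_algebraicClosure_iff.2 (isAlgebraic_algebraMap (⟨t, hk.1⟩ : k))
  · intro c hc
    have hz : IsAlgebraic k (∑ i, c i ^ p * t ^ (i : ℕ)) := mem_algebraicClosure_iff.1 hc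
    obtain ⟨z, hzdef⟩ : ∃ z : L, z = ∑ i, c i ^ p * t ^ (i : ℕ) := ⟨_, rfl⟩
    rw [← hzdef] at hz
    have hint : IsIntegral k z := hz.isIntegral
    have : FiniteDimensional k k⟮z⟯ := IntermediateField.adjoin.finiteDimensional hint
    let b := Module.finBasis k k⟮z⟯
    classical
    have hli : LinearIndepOn k _root_.id ((Finset.univ.image b : Finset k⟮z⟯) : Set k⟮z⟯) := by
      have h1 := b.linearIndependent.linearIndepOn_id
      rw [Finset.coe_image, Finset.coe_univ, Set.image_univ]
      exact h1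
    have h2 := hPOW p L t k hPB hk k⟮z⟯ _ hli
    have h3 : LinearIndependent k (fun j => (b j) ^ p) := by
      have h4 := LinearIndependent.comp h2 (fun j => (⟨b j, by
        rw [Finset.coe_image, Finset.coe_univ, Set.image_univ]
        exact ⟨j, rfl⟩⟩ : ((Finset.univ.image b : Finset k⟮z⟯) : Set k⟮z⟯))) (by
          intro i j hij
          exact b.injective (congrArg Subtype.val hij))
      exact h4
    have hspan := h3.span_eq_top_of_card_eq_finrank' (by simp)
    have hzm : (IntermediateField.AdjoinSimple.gen k z) ∈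
        Submodule.span k (Set.range (fun j => (b j) ^ p)) := by
      rw [hspan]; exact Submodule.mem_top
    obtain ⟨a, ha⟩ := (Submodule.mem_span_range_iff_exists_fun k).1 hzm
    have ha' : ∑ j, (a j : L) * ((b j : k⟮z⟯) : L) ^ p = z := by
      have h5 := congrArg (fun y : k⟮z⟯ => (y : L)) ha
      simp only [IntermediateField.AdjoinSimple.coe_gen] at h5
      refine Eq.trans ?_ h5
      simp [Algebra.smul_def]
      rfl
    choose e he using fun j => hPB.1 (a j : L)
    have hek : ∀ j i, e j i ∈ k := by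
      intro j i
      refine hk.2 (e j) ?_ i
      rw [← he j]
      exact (a j).2
    have hzd : z = ∑ i : Fin p, (∑ j, e j i * ((b j : k⟮z⟯) : L)) ^ p * t ^ (i : ℕ) := by
      refine ha'.symm.trans ?_
      have h6 : ∀ i : Fin p, (∑ j, e j i * ((b j : k⟮z⟯) : L)) ^ p * t ^ (i : ℕ) =
          ∑ j, (e j i ^ p * t ^ (i : ℕ)) * ((b j : k⟮z⟯) : L) ^ p := by
        intro i
        rw [sum_pow_char, Finset.sum_mul]
        refine Finset.sum_congr rfl fun j _ => ?_
        rw [mul_pow]; ring
      rw [Finset.sum_congr rfl (fun i _ => h6 i), Finset.sum_comm]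
      refine Finset.sum_congr rfl fun j _ => ?_
      rw [← Finset.sum_mul, ← he j]
    have hzero : ∑ i : Fin p, (c i - ∑ j, e j i * ((b j : k⟮z⟯) : L)) ^ p * t ^ (i : ℕ) = 0 := by
      have h7 : ∀ i : Fin p, (c i - ∑ j, e j i * ((b j : k⟮z⟯) : L)) ^ p * t ^ (i : ℕ) =
          c i ^ p * t ^ (i : ℕ) - (∑ j, e j i * ((b j : k⟮z⟯) : L)) ^ p * t ^ (i : ℕ) := by
        intro i
        rw [sub_pow_char, sub_mul]
      rw [Finset.sum_congr rfl (fun i _ => h7 i), Finset.sum_sub_distrib, sub_eq_zero]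
      exact hzdef.symm.trans hzd
    intro i
    have h8 := hPB.2 _ hzero i
    have h9 : c i = ∑ j, e j i * ((b j : k⟮z⟯) : L) := sub_eq_zero.1 h8
    have h10 : c i ∈ k⟮z⟯ := by
      rw [h9]
      refine sum_mem fun j _ => mul_mem ?_ (b j).2
      exact (k⟮z⟯).algebraMap_mem ⟨e j i, hek j i⟩
    have h11 : IsAlgebraic k (⟨c i, h10⟩ : k⟮z⟯) := Algebra.IsAlgebraic.isAlgebraic _
    exact mem_algebraicClosure_iff.2 (h11.algebraMap (A := L))
  · intro x hx
    have hx' : IsAlgebraic (algebraicClosure k L) x := hx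
    exact mem_algebraicClosure_iff.2 (IsAlgebraic.restrictScalars k hx')

end Pool.Agent.Helper70.XG.LCL
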